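import Pool.Agent.H59.SD.TargetsN
import Pool.Agent.H45.NF.PA
import Pool.Agent.H7.HD.All8
import Pool.Agent.H7.HD.Pr

/-!
# PSA. Definability from ordinals and a subset of `L`
-/

open Ordinal Cardinal Order Set
open scoped ZFSet

universe u

namespace Pool.Agent.H14.SD

open _root_.HD HD.PRK HD.SD Pool.Agent.H45.NF

theorem ps_of_od {L : Cardinal.{u}} {x : ZFSet.{u}} (hx : OD x) : PS L x :=
  ⟨∅, ZFSet.empty_subset _, ODp.of_dz (Q := fun v => v 0 = x)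
    (DZ.od (R := fun r v => v 0 = r) hx (DZ.eq 1 0)) fun _ => Iff.rfl⟩

theorem ps_sub {L : Cardinal.{u}} {x : ZFSet.{u}} (hx : x ⊆ L.ord.toZFSet) : PS L x :=
  ⟨x, hx, ODp.of_dz (Q := fun v => v 0 = v 1) (DZ.eq 0 1) fun _ => Iff.rfl⟩

theorem np_iff {L : Cardinal.{u}} {x : ZFSet.{u}} : NP L x ↔ PS L x ∧ ∀ y ∈ x, NP L y :=
  ZFSet.hereditarily_iff

theorem np_ord {L : Cardinal.{u}} (a : Ordinal.{u}) : NP L a.toZFSet := by
  induction a using WellFoundedLT.induction with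
  | _ a ih =>
    refine np_iff.2 ⟨ps_of_od (OD.ordinal a), fun y hy => ?_⟩
    obtain ⟨b, hb, rfl⟩ := mem_toZFSet_iff.1 hy
    exact ih b hb

theorem odp_trans {c a x : ZFSet.{u}} (ha : NF.ODp c a) (hx : NF.ODp a x) : NF.ODp c x := by
  obtain ⟨Q1, hQ1, h1⟩ := ODp.def ha
  obtain ⟨Q2, hQ2, h2⟩ := ODp.def hx
  refine ODp.of_dz (Q := fun v => ∃ a' : ZFSet.{u}, Q1 (cons a' fun _ => v 1) ∧
    Q2 (cons (v 0) fun _ => a')) ?_ fun w => ?_
  · refine DZ.ex (DZ.and ?_ ?_)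
    -- order of the variables: a', v 0, v 1
    · refine (hQ1.ren fun n => if n = 0 then 0 else 2).congr fun v => ?_
      have : (cons (v 0) fun _ => v 2) = fun n => v (if n = 0 then 0 else 2) := by
        funext n
        rcases n with _ | n <;> simp
      exact this ▸ Iff.rfl
    · refine (hQ2.ren fun n => if n = 0 then 1 else 0).congr fun v => ?_
      have : (cons (v 1) fun _ => v 0) = fun n => v (if n = 0 then 1 else 0) := by
        funext n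
        rcases n with _ | n <;> simp
      exact this ▸ Iff.rfl
  · constructor
    · rintro ⟨a', h3, h4⟩
      rw [(h1 a').1 h3] at h4
      exact (h2 w).1 h4
    · rintro rfl
      exact ⟨a, (h1 a).2 rfl, (h2 w).2 rfl⟩

theorem odp_comp {c x y z : ZFSet.{u}} (hx : NF.ODp c x) (hy : NF.ODp c y)
    (hz : NF.ODp (ZFSet.pair x y) z) : NF.ODp c z := by
  obtain ⟨Q1, hQ1, h1⟩ := ODp.def hx
  obtain ⟨Q2, hQ2, h2⟩ := ODp.def hy
  obtain ⟨Q3, hQ3, h3⟩ := ODp.def hz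
  refine ODp.of_dz (Q := fun v => ∃ x' y' p : ZFSet.{u}, Q1 (cons x' fun _ => v 1) ∧
    Q2 (cons y' fun _ => v 1) ∧ p = ZFSet.pair x' y' ∧ Q3 (cons (v 0) fun _ => p)) ?_ fun w => ?_
  · refine DZ.ex (DZ.ex (DZ.ex ?_))
    -- order of the variables: p, y', x', v 0, v 1
    refine DZ.and ?_ (DZ.and ?_ ((loc_pair 0 2 1).dz.and ?_))
    · refine (hQ1.ren fun n => if n = 0 then 2 else 4).congr fun v => ?_
      have : (cons (v 2) fun _ => v 4) = fun n => v (if n = 0 then 2 else 4) := by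
        funext n
        rcases n with _ | n <;> simp
      exact this ▸ Iff.rfl
    · refine (hQ2.ren fun n => if n = 0 then 1 else 4).congr fun v => ?_
      have : (cons (v 1) fun _ => v 4) = fun n => v (if n = 0 then 1 else 4) := by
        funext n
        rcases n with _ | n <;> simp
      exact this ▸ Iff.rfl
    · refine (hQ3.ren fun n => if n = 0 then 3 else 0).congr fun v => ?_
      have : (cons (v 3) fun _ => v 0) = fun n => v (if n = 0 then 3 else 0) := by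
        funext n
        rcases n with _ | n <;> simp
      exact this ▸ Iff.rfl
  · constructor
    · rintro ⟨x', y', p, h5, h6, rfl, h7⟩
      rw [(h1 x').1 h5, (h2 y').1 h6] at h7
      exact (h3 w).1 h7
    · rintro rfl
      exact ⟨x, y, _, (h1 x).2 rfl, (h2 y).2 rfl, rfl, (h3 w).2 rfl⟩

/-- the section of `c` at `ξ` is definable from `c` -/
theorem odp_sec {t : Ordinal.{u} → Ordinal.{u} → Ordinal.{u}}
    (ht : DO fun w => w 2 = t (w 0) (w 1)) (κ ξ : Ordinal.{u}) {c a : ZFSet.{u}}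
    (ha : a ⊆ κ.toZFSet)
    (h : ∀ b < κ, (b.toZFSet ∈ a ↔ (t ξ b).toZFSet ∈ c)) : NF.ODp c a := by
  have h1 : DX fun (x : ZFSet.{u}) (w : ℕ → Ordinal.{u}) => (t ξ (w 0)).toZFSet ∈ x := by
    refine DX.congr (DX.ex (S := fun a x w => ∃ d, d = ξ ∧ a = t d (w 0) ∧ a.toZFSet ∈ x)
      (DX.ex (S := fun d x w => d = ξ ∧ w 0 = t d (w 1) ∧ (w 0).toZFSet ∈ x)
      ((DX.o (DO.eqc 0 ξ)).and ((DX.o ?_).and (DX.mem 1))))) fun x w => ?_
    · exact ht.ren fun n => if n = 0 then 0 else if n = 1 then 2 else 1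
    · constructor
      · intro h1
        exact ⟨_, ξ, rfl, rfl, h1⟩
      · rintro ⟨a, d, rfl, rfl, h1⟩
        exact h1
  obtain ⟨Q, hQ, h2⟩ := h1
  refine ODp.of_dz (Q := fun v => ∀ b : ZFSet.{u}, (b ∈ v 0 ↔ b ∈ κ.toZFSet ∧
    Q (cons (v 1) fun _ => b))) ?_ fun w => ?_
  · refine DZ.od (R := fun k v => ∀ b : ZFSet.{u}, (b ∈ v 0 ↔ b ∈ k ∧
      Q (cons (v 1) fun _ => b))) (OD.ordinal κ) (DZ.all ((DZ.mem 0 2).iff ((DZ.mem 0 1).and ?_)))
    refine (hQ.ren fun n => if n = 0 then 3 else 0).congr fun v => ?_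
    have : (cons (v 3) fun _ => v 0) = fun n => v (if n = 0 then 3 else 0) := by
      funext n
      rcases n with _ | n <;> simp
    exact this ▸ Iff.rfl
  · have h3 : ∀ b : ZFSet.{u}, (b ∈ κ.toZFSet ∧ Q (cons c fun _ => b)) ↔ b ∈ a := by
      intro b
      constructor
      · rintro ⟨h4, h5⟩
        obtain ⟨β, hβ, rfl⟩ := mem_toZFSet_iff.1 h4
        exact (h β hβ).2 ((h2 c fun _ => β).2 h5)
      · intro h4
        obtain ⟨β, hβ, rfl⟩ := mem_toZFSet_iff.1 (ha h4)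
        exact ⟨ha h4, (h2 c fun _ => β).1 ((h β hβ).1 h4)⟩
    constructor
    · intro h4
      refine ZFSet.ext fun b => ?_
      exact (h4 b).trans (h3 b)
    · rintro rfl b
      exact (h3 b).symm

theorem ps_code {L : Cardinal.{u}} (hL : ℵ₀ ≤ L) {a b : ZFSet.{u}} (ha : a ⊆ L.ord.toZFSet)
    (hb : b ⊆ L.ord.toZFSet) : ∃ c, c ⊆ L.ord.toZFSet ∧ NF.ODp c a ∧ NF.ODp c b := by
  obtain ⟨t, h1, h2, h3⟩ := t_PR.{u}
  have h6 : (1 : Ordinal.{u}) < L.ord := Ordinal.one_lt_omega0.trans_le (by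
    rw [← Cardinal.ord_aleph0]
    exact Cardinal.ord_le_ord.2 hL)
  have h5 : (0 : Ordinal.{u}) < L.ord := zero_lt_one.trans h6
  refine ⟨os L.ord {d | ∃ α, (d = t 0 α ∧ α.toZFSet ∈ a) ∨ (d = t 1 α ∧ α.toZFSet ∈ b)}, ?_,
    odp_sec h1 L.ord 0 ha fun α hα => ?_, odp_sec h1 L.ord 1 hb fun α hα => ?_⟩
  · intro w hw
    obtain ⟨d, hd, -, rfl⟩ := mem_os.1 hw
    exact toZFSet_mem_toZFSet_iff.2 hd
  · rw [ord_mem_os]
    constructor
    · intro h4
      exact ⟨h3 L hL 0 h5 α hα, α, Or.inl ⟨rfl, h4⟩⟩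
    · rintro ⟨-, β, ⟨h4, h7⟩ | ⟨h4, h7⟩⟩
      · obtain ⟨-, rfl⟩ := h2 _ _ _ _ h4
        exact h7
      · exact absurd (h2 _ _ _ _ h4).1 zero_ne_one
  · rw [ord_mem_os]
    constructor
    · intro h4
      exact ⟨h3 L hL 1 h6 α hα, α, Or.inr ⟨rfl, h4⟩⟩
    · rintro ⟨-, β, ⟨h4, h7⟩ | ⟨h4, h7⟩⟩
      · exact absurd (h2 _ _ _ _ h4).1 one_ne_zero
      · obtain ⟨-, rfl⟩ := h2 _ _ _ _ h4
        exact h7

theorem ps_comp {L : Cardinal.{u}} (hL : ℵ₀ ≤ L) {x y z : ZFSet.{u}} (hx : PS L x)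
    (hy : PS L y) (hz : NF.ODp (ZFSet.pair x y) z) : PS L z := by
  obtain ⟨a, ha, hx⟩ := hx
  obtain ⟨b, hb, hy⟩ := hy
  obtain ⟨c, hc, h1, h2⟩ := ps_code hL ha hb
  exact ⟨c, hc, odp_comp (odp_trans h1 hx) (odp_trans h2 hy) hz⟩

theorem pf_PSA : T_PSA.{u} := by
  refine ⟨fun L x hx => ps_of_od hx, fun L x hx => ps_sub hx, fun L κ x hx h => ?_,
    fun L hL x y z hx hy hz => ps_comp hL hx hy hz⟩
  refine np_iff.2 ⟨h, fun y hy => ?_⟩
  obtain ⟨a, -, rfl⟩ := mem_toZFSet_iff.1 (hx hy)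
  exact np_ord a

end Pool.Agent.H14.SD
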