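import Pool.Agent.H14.SD.PSA
import Pool.Agent.H3.HD.DM

/-!
# PSD. The classes of the sets definable from ordinals and a subset of `L` are definable
-/

open Ordinal Cardinal Order Set
open scoped ZFSet

universe u

namespace Pool.Agent.H14.SD

open _root_.HD HD.PRK HD.SD Pool.Agent.H45.NF

theorem ps_iff {L : Cardinal.{u}} {x : ZFSet.{u}} : PS L x ↔ ∃ a, (∀ b ∈ a, b ∈ L.ord.toZFSet) ∧
    ∃ R, OD R ∧ ∀ z, ∀ w, w = ZFSet.pair a z → (w ∈ R ↔ z = x) := by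
  constructor
  · rintro ⟨a, ha, h⟩
    obtain ⟨R, hR, h1⟩ := (pf_pa a x).1 h
    refine ⟨a, fun b hb => ha hb, R, hR, fun z w hw => ?_⟩
    rw [hw]
    exact h1 z
  · rintro ⟨a, ha, R, hR, h1⟩
    exact ⟨a, fun b hb => ha b hb, (pf_pa a x).2 ⟨R, hR, fun z => h1 z _ rfl⟩⟩

theorem dz_ps (L : Cardinal.{u}) (i : ℕ) : DZ fun v => PS L (v i) := by
  obtain ⟨en, hen⟩ := All.en.{u}
  refine DZ.congr (P := fun v => ∃ a, (∀ b ∈ a, b ∈ L.ord.toZFSet) ∧ ∃ R, OD R ∧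
    ∀ z, ∀ w, w = ZFSet.pair a z → (w ∈ R ↔ z = v i)) ?_ fun v => ps_iff
  refine DZ.od (R := fun t v => ∃ a, (∀ b ∈ a, b ∈ t) ∧ ∃ R, OD R ∧
    ∀ z, ∀ w, w = ZFSet.pair a z → (w ∈ R ↔ z = v i)) (OD.ordinal L.ord) ?_
  -- order of the variables: w, z, R, a, t, v
  refine DZ.ex (DZ.and (DZ.allMem 0 (DZ.mem 0 2)) (DZ.ex ((hen.dzOD 0).and
    (DZ.all (DZ.all ?_)))))
  exact (loc_pair 0 3 1).dz.imp ((DZ.mem 0 2).iff (DZ.eq 1 (i + 5)))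

theorem np_tr {L : Cardinal.{u}} {x : ZFSet.{u}} : NP L x ↔ PS L x ∧
    ∃ t : ZFSet.{u}, (∀ y ∈ t, ∀ z ∈ y, z ∈ t) ∧ (∀ y ∈ x, y ∈ t) ∧ ∀ y ∈ t, PS L y := by
  constructor
  · intro hx
    refine ⟨(np_iff.1 hx).1, ZFSet.sep (NP L) (V_ x.rank), ?_, ?_, ?_⟩
    · intro y hy z hz
      rw [ZFSet.mem_sep] at hy ⊢
      exact ⟨mem_V_of_mem hz hy.1, (np_iff.1 hy.2).2 z hz⟩
    · intro y hy
      rw [ZFSet.mem_sep, ZFSet.mem_vonNeumann]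
      exact ⟨ZFSet.rank_lt_of_mem hy, (np_iff.1 hx).2 y hy⟩
    · intro y hy
      exact (np_iff.1 (ZFSet.mem_sep.1 hy).2).1
  · rintro ⟨h1, t, h2, h3, h4⟩
    have h5 : ∀ y : ZFSet.{u}, y ∈ t → NP L y := by
      intro y
      induction y using ZFSet.inductionOn with
      | _ y ih =>
        intro hy
        exact np_iff.2 ⟨h4 y hy, fun z hz => ih z hz (h2 y hy z hz)⟩
    exact np_iff.2 ⟨h1, fun y hy => h5 y (h3 y hy)⟩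

theorem dz_np (L : Cardinal.{u}) (i : ℕ) : DZ fun v => NP L (v i) := by
  refine DZ.congr (P := fun v => PS L (v i) ∧ ∃ t : ZFSet.{u}, (∀ y ∈ t, ∀ z ∈ y, z ∈ t) ∧
    (∀ y ∈ v i, y ∈ t) ∧ ∀ y ∈ t, PS L y) ?_ fun v => np_tr
  refine DZ.and (dz_ps L i) (DZ.ex (DZ.and ?_ (DZ.and ?_ ?_)))
  · exact DZ.allMem 0 (DZ.allMem 0 (DZ.mem 0 2))
  · exact DZ.allMem (i + 1) (DZ.mem 0 1)
  · exact DZ.allMem 0 (dz_ps L 0)

theorem pf_PSD : T_PSD.{u} := fun L => ⟨dz_ps L 0, dz_np L 0⟩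

end Pool.Agent.H14.SD
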